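import Pool.Agent.K1H87.LK.Group

/-!
# Finite generation of string links modulo the lower central series (task T9 of MP_5b16f0_gt)
-/

set_option autoImplicit false

namespace Pool.Agent.K1H87.LK

open Pool.Agent.K1H35.LK

theorem t_FGM (hR : S_REAL) (hG : S_GAM) (hP : S_PLACE) (hPsi : S_PSI) (hM : S_MUL) (hL : S_LP)
    (hB : S_BASE) (hC : S_LCS) : S_FGM := by
  intro m n hm
  have r2 := hR.2.1
  have r5 := hR.2.2.2.2.1
  have r9 := hR.2.2.2.2.2.2.2.2.1
  induction n with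
  | zero =>
    exact ⟨∅, Set.finite_empty, by simp, fun d hd => ⟨[], by simp, hB m d hm hd⟩⟩
  | succ n ih =>
    obtain ⟨F, hFfin, hFval, hF⟩ := ih
    obtain ⟨C, hC1, hC2⟩ := hC n
    obtain ⟨T, hT1, hT2, hT3⟩ := hL m (2 * n + 2) hm
    have hKle : 2 * n + 2 ≤ m + m * (2 * n + 2) :=
      le_trans (Nat.le_mul_of_pos_left _ hm) (Nat.le_add_left _ _)
    -- the chosen places
    have hch : ∀ f : Fin (2 * n + 2) → Fin (m + m * (2 * n + 2)), ∃ g ∈ BN (m + m * (2 * n + 2)),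
        Function.Injective f → ∀ j : Fin (2 * n + 2), pm g j = f j := by
      intro f
      by_cases hf : Function.Injective f
      · obtain ⟨g, hg, hg'⟩ := r9 (m + m * (2 * n + 2)) (2 * n + 2)
          (fun j => if h : j < 2 * n + 2 then (f ⟨j, h⟩ : ℕ) else 0) hKle
          (by
            intro j hj
            simp only [hj, dif_pos]
            exact (f ⟨j, hj⟩).2)
          (by
            intro i j hi hj hij
            simp only [hi, hj, dif_pos] at hij
            have := hf (Fin.ext hij)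
            exact congrArg Fin.val this)
        refine ⟨g, hg, fun _ j => ?_⟩
        have := hg' j j.2
        simpa using this
      · exact ⟨1, one_mem _, fun h => absurd h hf⟩
    choose gf hgf1 hgf2 using hch
    -- the new generators
    let mk : Br × (Fin (2 * n + 2) → Fin (m + m * (2 * n + 2))) → RD := fun p =>
      ⟨m * (2 * n + 2), T * (gf p.2 * p.1 * (gf p.2)⁻¹)⟩
    let C' : Set Br := (C : Set Br) ∪ (fun c => c⁻¹) '' (C : Set Br)
    have hC'fin : C'.Finite := (Finset.finite_toSet C).union ((Finset.finite_toSet C).image _)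
    have hC' : ∀ c ∈ C', c ∈ Gam (2 * n + 2) n := by
      rintro c (hc | ⟨c, hc, rfl⟩)
      · exact hC1 c (Finset.mem_coe.mp hc)
      · exact inv_mem (hC1 c (Finset.mem_coe.mp hc))
    let Θ : Set RD := mk '' (C' ×ˢ Set.univ)
    have hΘfin : Θ.Finite := (hC'fin.prod Set.finite_univ).image _
    have hΘval : ∀ θ ∈ Θ, Val m θ := by
      rintro θ ⟨⟨c, f⟩, ⟨hc, -⟩, rfl⟩
      exact val_place hR hG hT1 hKle (hgf1 f) (hC' c hc)
    -- one step, many strands
    have key : ∀ k b c g, Val m ⟨k, b⟩ → 2 * n + 2 ≤ m + k → c ∈ C' → g ∈ BN (m + k) →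
        ∃ l : List RD, (∀ x ∈ l, x ∈ Θ) ∧
          Eqn m (n + 1) ⟨k, b * (g * c * g⁻¹)⟩ (l.foldr (mul m) ⟨k, b⟩) := by
      intro k b c g hb hk hc hg
      obtain ⟨g', hg', h⟩ := hT3 k n b g c hb hk hg (hC' c hc)
      have hlt : ∀ j : Fin (2 * n + 2), pm g' j < m + m * (2 * n + 2) :=
        fun j => r2 _ _ hg' _ (lt_of_lt_of_le j.2 hKle)
      let f : Fin (2 * n + 2) → Fin (m + m * (2 * n + 2)) := fun j => ⟨pm g' j, hlt j⟩
      have hf : Function.Injective f := by
        intro i j hij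
        have h1 : pm g' i = pm g' j := congrArg Fin.val hij
        exact Fin.ext ((pm g').injective h1)
      refine ⟨[mk (c, f)], ?_, ?_⟩
      · intro x hx
        rw [List.mem_singleton] at hx
        subst hx
        exact ⟨(c, f), ⟨hc, Set.mem_univ _⟩, rfl⟩
      · refine eqn_trans h ?_
        show Eqn m (n + 1) _ (mul m (mk (c, f)) ⟨k, b⟩)
        have hv1 : Val m ⟨m * (2 * n + 2), T * (g' * c * g'⁻¹)⟩ :=
          val_place hR hG hT1 hKle hg' (hC' c hc)
        have hv2 : Val m (mk (c, f)) := val_place hR hG hT1 hKle (hgf1 f) (hC' c hc)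
        refine hM.2.2.2.2 m (n + 1) _ _ _ _ hv1 hv2 hb hb ?_ (eqn_refl _)
        refine eqn_of_ins hv1 hv2 ⟨rfl, _, hP (2 * n + 2) (m + m * (2 * n + 2)) n c g' (gf f) hKle
          (hC' c hc) hg' (hgf1 f) ?_, ?_⟩
        · intro j hj
          have := hgf2 f hf ⟨j, hj⟩
          simp only [f] at this
          exact this.symm
        · show T * (gf f * c * (gf f)⁻¹) = _
          group
    have hfold : ∀ (l l' : List RD) (a b c : RD), Val m a → Val m b → (∀ x ∈ l, x ∈ Θ) →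
        (∀ x ∈ l', x ∈ Θ) → Eqn m (n + 1) b (l.foldr (mul m) a) →
        Eqn m (n + 1) c (l'.foldr (mul m) b) → Eqn m (n + 1) c ((l' ++ l).foldr (mul m) a) := by
      intro l l' a b c ha hb hl hl' h1 h2
      rw [List.foldr_append]
      exact eqn_trans h2 (eqn_foldr hM (fun x hx => hΘval x (hl' x hx)) hb
        (val_foldr hM (fun x hx => hΘval x (hl x hx)) ha) h1)
    -- all insertions, many strands
    have key2 : ∀ k, 2 * n + 2 ≤ m + k → ∀ γ, γ ∈ Gam (m + k) n → γ ∈ PN (m + k) ∧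
        (∀ b, Val m ⟨k, b⟩ → ∃ l : List RD, (∀ x ∈ l, x ∈ Θ) ∧
          Eqn m (n + 1) ⟨k, b * γ⟩ (l.foldr (mul m) ⟨k, b⟩)) ∧
        (∀ b, Val m ⟨k, b⟩ → ∃ l : List RD, (∀ x ∈ l, x ∈ Θ) ∧
          Eqn m (n + 1) ⟨k, b * γ⁻¹⟩ (l.foldr (mul m) ⟨k, b⟩)) := by
      intro k hk γ hγ
      have hγ' := hC2 (m + k) hk hγ
      have hpure : ∀ γ ∈ PN (m + k), ∀ b, Val m ⟨k, b⟩ → Val m ⟨k, b * γ⟩ := by
        intro γ hγ b hb
        refine val_congr hb (mul_mem hb.1 hγ.2) ?_
        have : pm γ = 1 := hγ.1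
        rw [map_mul, this, mul_one]
      refine Subgroup.closure_induction (p := fun γ _ => γ ∈ PN (m + k) ∧
        (∀ b, Val m ⟨k, b⟩ → ∃ l : List RD, (∀ x ∈ l, x ∈ Θ) ∧
          Eqn m (n + 1) ⟨k, b * γ⟩ (l.foldr (mul m) ⟨k, b⟩)) ∧
        (∀ b, Val m ⟨k, b⟩ → ∃ l : List RD, (∀ x ∈ l, x ∈ Θ) ∧
          Eqn m (n + 1) ⟨k, b * γ⁻¹⟩ (l.foldr (mul m) ⟨k, b⟩))) ?_ ?_ ?_ ?_ hγ'
      · rintro x (⟨g, hg, c, hc, rfl⟩ | hx)
        · have hcG : c ∈ Gam (2 * n + 2) n := hC1 c hc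
          have hcPN : c ∈ Gam (m + k) n := hG.2.1 _ _ _ hk hcG
          refine ⟨hG.2.2.2.1 _ _ (hG.1 _ _ g c hg hcPN), ?_, ?_⟩
          · intro b hb
            exact key k b c g hb hk (Or.inl (Finset.mem_coe.mpr hc)) hg
          · intro b hb
            have e : (g * c * g⁻¹)⁻¹ = g * c⁻¹ * g⁻¹ := by group
            rw [e]
            exact key k b c⁻¹ g hb hk (Or.inr ⟨c, Finset.mem_coe.mpr hc, rfl⟩) hg
        · have hx' : x ∈ Gam (m + k) (n + 1) := hx
          have hxP : x ∈ PN (m + k) := hG.2.2.2.1 _ _ hx'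
          refine ⟨hxP, fun b hb => ⟨[], by simp, ?_⟩, fun b hb => ⟨[], by simp, ?_⟩⟩
          · exact eqn_symm (eqn_of_ins hb (hpure x hxP b hb) ⟨rfl, x, hx', rfl⟩)
          · exact eqn_symm (eqn_of_ins hb (hpure x⁻¹ (Subgroup.inv_mem _ hxP) b hb)
              ⟨rfl, x⁻¹, inv_mem hx', rfl⟩)
      · refine ⟨Subgroup.one_mem _, fun b hb => ⟨[], by simp, ?_⟩, fun b hb => ⟨[], by simp, ?_⟩⟩
        · rw [mul_one]; exact eqn_refl _
        · rw [inv_one, mul_one]; exact eqn_refl _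
      · rintro x y _ _ ⟨hxP, hx1, hx2⟩ ⟨hyP, hy1, hy2⟩
        refine ⟨Subgroup.mul_mem _ hxP hyP, fun b hb => ?_, fun b hb => ?_⟩
        · obtain ⟨l, hl, h1⟩ := hx1 b hb
          obtain ⟨l', hl', h2⟩ := hy1 (b * x) (hpure x hxP b hb)
          refine ⟨l' ++ l, ?_, ?_⟩
          · intro z hz
            rcases List.mem_append.mp hz with hz | hz
            · exact hl' z hz
            · exact hl z hz
          · rw [← mul_assoc]
            exact hfold l l' _ _ _ hb (hpure x hxP b hb) hl hl' h1 h2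
        · obtain ⟨l, hl, h1⟩ := hy2 b hb
          have hv := hpure y⁻¹ (Subgroup.inv_mem _ hyP) b hb
          obtain ⟨l', hl', h2⟩ := hx2 (b * y⁻¹) hv
          refine ⟨l' ++ l, ?_, ?_⟩
          · intro z hz
            rcases List.mem_append.mp hz with hz | hz
            · exact hl' z hz
            · exact hl z hz
          · rw [mul_inv_rev, ← mul_assoc]
            exact hfold l l' _ _ _ hb hv hl hl' h1 h2
      · rintro x _ ⟨hxP, hx1, hx2⟩
        refine ⟨Subgroup.inv_mem _ hxP, hx2, ?_⟩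
        rw [inv_inv]
        exact hx1
    -- all insertions
    have hone : ∀ k b γ, Val m ⟨k, b⟩ → γ ∈ Gam (m + k) n → ∃ l : List RD, (∀ x ∈ l, x ∈ Θ) ∧
        Eqn m (n + 1) ⟨k, b * γ⟩ (l.foldr (mul m) ⟨k, b⟩) := by
      intro k b γ hb hγ
      have hv1 : Val m (mul m ⟨m * (2 * n + 2), T⟩ ⟨k, b⟩) := val_mul hM hT1 hb
      have hvb : Val m ⟨k, b * γ⟩ := by
        refine val_congr hb (mul_mem hb.1 (gam_mem hG hγ)) ?_
        rw [map_mul, gam_pm hG hγ, mul_one]
      have hst : ∀ ρ, Val m ρ → Eqn m (n + 1) (mul m ⟨m * (2 * n + 2), T⟩ ρ) ρ := by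
        intro ρ hρ
        have := hM.2.2.2.2 m (n + 1) _ _ _ _ hT1 (val_one m) hρ hρ (eqn_of_mk hT2) (eqn_refl ρ)
        rwa [one_mul'] at this
      have hγ' : psiK m (m * (2 * n + 2)) γ ∈ Gam (m + (m * (2 * n + 2) + k)) n := by
        have := hPsi.2.2.2.2.2.2.2.2.1 m (m * (2 * n + 2)) k n γ hγ
        rwa [add_assoc] at this
      obtain ⟨-, h2, -⟩ := key2 (m * (2 * n + 2) + k) (by omega) _ hγ'
      obtain ⟨l, hl, h3⟩ := h2 _ hv1
      refine ⟨l, hl, ?_⟩
      refine eqn_trans (eqn_symm (hst _ hvb)) (eqn_trans ?_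
        (eqn_foldr hM (fun x hx => hΘval x (hl x hx)) hv1 hb (hst _ hb)))
      have e : mul m ⟨m * (2 * n + 2), T⟩ ⟨k, b * γ⟩ = ⟨m * (2 * n + 2) + k,
          (T * psiK m (m * (2 * n + 2)) b) * psiK m (m * (2 * n + 2)) γ⟩ := by
        unfold mul
        simp only [map_mul, mul_assoc]
      rw [e]
      exact h3
    refine ⟨F ∪ Θ, hFfin.union hΘfin, ?_, ?_⟩
    · rintro f (hf | hf)
      · exact hFval f hf
      · exact hΘval f hf
    · intro d hd
      obtain ⟨l, hl, h⟩ := hF d hd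
      have hvl : Val m (l.foldr (mul m) one) := val_foldr hM (fun x hx => hFval x (hl x hx))
        (val_one m)
      obtain ⟨l', hl', h'⟩ := (chain hG hM hΘval hone h).2 hvl
      refine ⟨l' ++ l, ?_, ?_⟩
      · intro z hz
        rcases List.mem_append.mp hz with hz | hz
        · exact Or.inr (hl' z hz)
        · exact Or.inl (hl z hz)
      · rw [List.foldr_append]
        exact h'

end Pool.Agent.K1H87.LK
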