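import Pool.Agent.K1H87.LK.Slide

/-!
# String links modulo the lower central series form a group (task T7 of MP_5b16f0_gt)
-/

set_option autoImplicit false

namespace Pool.Agent.K1H87.LK

open Pool.Agent.K1H35.LK

/-! ## Validity -/

theorem val_of_eqn_iff {m n : ℕ} {d e : RD} (h : Eqn m n d e) : Val m d ↔ Val m e := by
  induction h with
  | rel a b h => exact ⟨fun _ => h.2.1, fun _ => h.1⟩
  | refl a => exact Iff.rfl
  | symm a b _ ih => exact ih.symm
  | trans a b c _ _ ih1 ih2 => exact ih1.trans ih2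

theorem eqn_of_mk {m n : ℕ} {d e : RD} (h : Mk m d e) : Eqn m n d e := by
  induction h with
  | rel a b h => exact eqn_of_mv h.1 h.2.1 h.2.2
  | refl a => exact eqn_refl _
  | symm a b _ ih => exact eqn_symm ih
  | trans a b c _ _ ih1 ih2 => exact eqn_trans ih1 ih2

theorem val_one (m : ℕ) : Val m one := by
  refine ⟨one_mem _, ?_, ?_⟩
  · intro a ha
    exact ⟨a, by simpa [one] using ha, Equiv.Perm.SameCycle.refl _ _⟩
  · intro i _ j _ h
    obtain ⟨t, ht⟩ := h
    simpa [one] using ht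

theorem val_mul (hM : S_MUL) {m : ℕ} {d e : RD} (h1 : Val m d) (h2 : Val m e) :
    Val m (mul m d e) := hM.1 m d e h1 h2

/-! ## The monoid -/

theorem psiK_add (m a b : ℕ) (y : Br) : psiK m (a + b) y = psiK m a (psiK m b y) := by
  induction a with
  | zero => rw [Nat.zero_add]; rfl
  | succ a ih =>
    rw [show a + 1 + b = (a + b) + 1 by ring]
    show psi m (psiK m (a + b) y) = psi m (psiK m a (psiK m b y))
    rw [ih]

theorem mul_assoc' (m : ℕ) (a b c : RD) : mul m (mul m a b) c = mul m a (mul m b c) := by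
  unfold mul
  simp only [map_mul, RD.mk.injEq]
  refine ⟨Nat.add_assoc _ _ _, ?_⟩
  rw [psiK_add, mul_assoc]

theorem one_mul' (m : ℕ) (a : RD) : mul m one a = a := by
  obtain ⟨k, b⟩ := a
  unfold mul one
  simp only [RD.mk.injEq, Nat.zero_add, one_mul, true_and]
  rfl

theorem foldr_mul_assoc (m : ℕ) (l : List RD) (a b : RD) :
    l.foldr (mul m) (mul m a b) = mul m (l.foldr (mul m) a) b := by
  induction l with
  | nil => rfl
  | cons x l ih => rw [List.foldr_cons, List.foldr_cons, ih, mul_assoc']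

theorem val_foldr (hM : S_MUL) {m : ℕ} {l : List RD} (hl : ∀ x ∈ l, Val m x) {a : RD}
    (ha : Val m a) : Val m (l.foldr (mul m) a) := by
  induction l with
  | nil => exact ha
  | cons x l ih =>
    rw [List.foldr_cons]
    exact val_mul hM (hl x (by simp)) (ih (fun y hy => hl y (by simp [hy])))

theorem eqn_foldr (hM : S_MUL) {m n : ℕ} {l : List RD} (hl : ∀ x ∈ l, Val m x) {a b : RD}
    (ha : Val m a) (hb : Val m b) (h : Eqn m n a b) :
    Eqn m n (l.foldr (mul m) a) (l.foldr (mul m) b) := by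
  induction l with
  | nil => exact h
  | cons x l ih =>
    rw [List.foldr_cons, List.foldr_cons]
    have hl' : ∀ y ∈ l, Val m y := fun y hy => hl y (by simp [hy])
    exact hM.2.2.2.2 m n _ _ _ _ (hl x (by simp)) (hl x (by simp)) (val_foldr hM hl' ha)
      (val_foldr hM hl' hb) (eqn_refl _) (ih hl')

/-! ## From `Eqn m n` to `Eqn m (n + 1)` -/

/-- If every insertion of an element of `Γ_{n+1}` can be undone modulo `Γ_{n+2}` by a multiplication
with elements of `S`, then this holds for the equivalence modulo `Γ_{n+1}`. -/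
theorem chain (hG : S_GAM) (hM : S_MUL) {m n : ℕ} {S : Set RD} (hS : ∀ θ ∈ S, Val m θ)
    (hone : ∀ k b γ, Val m ⟨k, b⟩ → γ ∈ Gam (m + k) n → ∃ l : List RD, (∀ x ∈ l, x ∈ S) ∧
      Eqn m (n + 1) ⟨k, b * γ⟩ (l.foldr (mul m) ⟨k, b⟩)) {ρ ρ' : RD} (h : Eqn m n ρ ρ') :
    (Val m ρ → ∃ l : List RD, (∀ x ∈ l, x ∈ S) ∧ Eqn m (n + 1) ρ' (l.foldr (mul m) ρ)) ∧
      (Val m ρ' → ∃ l : List RD, (∀ x ∈ l, x ∈ S) ∧ Eqn m (n + 1) ρ (l.foldr (mul m) ρ')) := by
  have htr : ∀ a b c : RD, Val m a → Val m b →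
      (∃ l : List RD, (∀ x ∈ l, x ∈ S) ∧ Eqn m (n + 1) b (l.foldr (mul m) a)) →
      (∃ l : List RD, (∀ x ∈ l, x ∈ S) ∧ Eqn m (n + 1) c (l.foldr (mul m) b)) →
      ∃ l : List RD, (∀ x ∈ l, x ∈ S) ∧ Eqn m (n + 1) c (l.foldr (mul m) a) := by
    rintro a b c ha hb ⟨l, hl, h1⟩ ⟨l', hl', h2⟩
    refine ⟨l' ++ l, ?_, ?_⟩
    · intro x hx
      rcases List.mem_append.mp hx with hx | hx
      · exact hl' x hx
      · exact hl x hx
    · rw [List.foldr_append]
      exact eqn_trans h2 (eqn_foldr hM (fun x hx => hS x (hl' x hx)) hb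
        (val_foldr hM (fun x hx => hS x (hl x hx)) ha) h1)
  induction h with
  | rel a b h =>
    obtain ⟨ha, hb, h | ⟨hk, x, hx, hbx⟩⟩ := h
    · exact ⟨fun _ => ⟨[], by simp, eqn_symm (eqn_of_mv ha hb h)⟩,
        fun _ => ⟨[], by simp, eqn_of_mv ha hb h⟩⟩
    · obtain ⟨k, ba⟩ := a
      obtain ⟨k', bb⟩ := b
      simp only at hk hx hbx
      subst hk
      subst hbx
      refine ⟨fun _ => hone k ba x ha hx, fun _ => ?_⟩
      have := hone k (ba * x) x⁻¹ hb (inv_mem hx)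
      rwa [mul_inv_cancel_right] at this
  | refl a => exact ⟨fun _ => ⟨[], by simp, eqn_refl _⟩, fun _ => ⟨[], by simp, eqn_refl _⟩⟩
  | symm a b _ ih => exact ⟨ih.2, ih.1⟩
  | trans a b c h1 h2 ih1 ih2 =>
    have e1 := val_of_eqn_iff h1
    have e2 := val_of_eqn_iff h2
    exact ⟨fun ha => htr a b c ha (e1.1 ha) (ih1.1 ha) (ih2.1 (e1.1 ha)),
      fun hc => htr c b a hc (e2.2 hc) (ih2.2 hc) (ih1.2 (e2.2 hc))⟩

/-! ## All string links are equivalent modulo the pure braid groups -/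

theorem t_BASE (hR : S_REAL) (hM : S_MUL) : S_BASE := by
  intro m d hm hV
  obtain ⟨k, b⟩ := d
  induction k generalizing b with
  | zero =>
    obtain ⟨hb, hok⟩ := hV
    simp only [Nat.add_zero] at hb hok
    have hp : pm b = 1 := by
      ext a
      by_cases ha : a < m
      · have h1 : pm b a < m := hR.2.1 _ _ hb _ ha
        exact (hok.2 a ha _ h1 ⟨1, by simp⟩).symm
      · exact hR.1 _ _ hb _ (not_lt.mp ha)
    refine eqn_symm (eqn_of_ins (val_one m) ⟨hb, hok⟩ ⟨rfl, b, ⟨hp, hb⟩, ?_⟩)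
    show b = 1 * b
    rw [one_mul]
  | succ k ih =>
    have hV' := hV
    obtain ⟨hb, hok⟩ := hV
    simp only at hb hok
    have hb' : b ∈ BN (m + k + 1) := hb
    have r1 := hR.1
    have r2 := hR.2.1
    have r4 := hR.2.2.2.1
    have r5 := hR.2.2.2.2.1
    have r8 := hR.2.2.2.2.2.2.2.1
    have hne : pm b (m + k) ≠ m + k := by
      intro h
      obtain ⟨i, hi, hs⟩ := hok.1 (m + k) (by omega)
      obtain ⟨t, ht⟩ := hs.symm
      rw [Equiv.Perm.zpow_apply_eq_self_of_apply_eq_self h] at ht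
      omega
    have hlt : pm b (m + k) < m + k := by
      have := r2 _ _ hb' (m + k) (by omega)
      omega
    obtain ⟨y1, hy1, hp1⟩ := r8 0 (m + k) (Equiv.swap (m + k - 1) (pm b (m + k)))
      (by intro a ha; omega)
      (by intro a ha; rw [Equiv.swap_apply_of_ne_of_ne] <;> omega)
    obtain ⟨y2, hy2, hp2⟩ := r8 0 (m + k)
      (Equiv.swap (m + k - 1) (m + k) * (Equiv.swap (m + k - 1) (pm b (m + k)))⁻¹ * pm b)
      (by intro a ha; omega)
      (by
        intro a ha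
        simp only [Equiv.Perm.mul_apply, Equiv.swap_inv]
        rcases Nat.eq_or_lt_of_le ha with h | h
        · subst h
          rw [Equiv.swap_apply_right, Equiv.swap_apply_left]
        · have e1 : Equiv.swap (m + k - 1) (pm b (m + k)) a = a :=
            Equiv.swap_apply_of_ne_of_ne (by omega) (by omega)
          rw [r1 _ _ hb' a (by omega), e1, Equiv.swap_apply_of_ne_of_ne (by omega) (by omega)])
    have hy1' := r4 _ _ hy1
    have hy2' := r4 _ _ hy2
    have hle : BN (m + k) ≤ BN (m + k + 1) := r5 _ _ (Nat.le_succ _)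
    have hs : s (m + k - 1) ∈ BN (m + k + 1) := Subgroup.subset_closure ⟨m + k - 1, by omega, rfl⟩
    have hsw : pm (s (m + k - 1)) = Equiv.swap (m + k - 1) (m + k) := by
      rw [pm_s]
      congr 1
      omega
    have hpp : pm (y1 * s (m + k - 1) * y2) = pm b := by
      rw [map_mul, map_mul, hp1, hp2, hsw, Equiv.swap_inv]
      have e : ∀ (A B C : Equiv.Perm ℕ), A * A = 1 → B * B = 1 → A * B * (B * A * C) = C := by
        intro A B C hA hB
        calc A * B * (B * A * C) = A * (B * B) * A * C := by group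
          _ = C := by rw [hB, mul_one, hA, one_mul]
      exact e _ _ _ (Equiv.swap_mul_self _ _) (Equiv.swap_mul_self _ _)
    have hmem : y1 * s (m + k - 1) * y2 ∈ BN (m + k + 1) :=
      mul_mem (mul_mem (hle hy1') hs) (hle hy2')
    have hV1 : Val m ⟨k + 1, y1 * s (m + k - 1) * y2⟩ := val_congr hV' hmem hpp
    have hmv : Mv m ⟨k, y1 * y2⟩ ⟨k + 1, y1 * s (m + k - 1) * y2⟩ :=
      Mv.stab k y1 y2 (by omega) hy1' hy2'
    have hV0 : Val m ⟨k, y1 * y2⟩ := hM.2.2.1 m _ _ hV1 hmv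
    have hins : Ins m 0 ⟨k + 1, y1 * s (m + k - 1) * y2⟩ ⟨k + 1, b⟩ := by
      refine ⟨rfl, (y1 * s (m + k - 1) * y2)⁻¹ * b,
        ⟨?_, Subgroup.mul_mem _ (Subgroup.inv_mem _ hmem) hb'⟩, ?_⟩
      · show pm _ = 1
        rw [map_mul, map_inv, hpp, inv_mul_cancel]
      · show b = _
        group
    exact eqn_trans (eqn_symm (eqn_of_ins hV1 hV' hins))
      (eqn_trans (eqn_symm (eqn_of_mv hV0 hV1 hmv)) (ih _ hV0))

/-! ## The group property -/

theorem val_place (hR : S_REAL) (hG : S_GAM) {m k K n : ℕ} {b g γ : Br} (hV : Val m ⟨k, b⟩)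
    (hK : K ≤ m + k) (hg : g ∈ BN (m + k)) (hγ : γ ∈ Gam K n) :
    Val m ⟨k, b * (g * γ * g⁻¹)⟩ := by
  have hγN : γ ∈ BN (m + k) := hR.2.2.2.2.1 _ _ hK (gam_mem hG hγ)
  refine val_congr hV (mul_mem hV.1 (mul_mem (mul_mem hg hγN) (inv_mem hg))) ?_
  simp only [map_mul, map_inv, gam_pm hG hγ, mul_one, mul_inv_cancel]

theorem t_GRP (hR : S_REAL) (hG : S_GAM) (hM : S_MUL) (hL : S_LP) (hB : S_BASE) : S_GRP := by
  intro m n d hm hV
  induction n with
  | zero =>
    refine ⟨one, val_one m, ?_⟩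
    rw [one_mul']
    exact hB m d hm hV
  | succ n ih =>
    obtain ⟨e, he, hed⟩ := ih
    have hone : ∀ k b γ, Val m ⟨k, b⟩ → γ ∈ Gam (m + k) n → ∃ l : List RD,
        (∀ x ∈ l, x ∈ {θ : RD | Val m θ}) ∧
        Eqn m (n + 1) ⟨k, b * γ⟩ (l.foldr (mul m) ⟨k, b⟩) := by
      intro k b γ hb hγ
      obtain ⟨T, hT1, -, hT3⟩ := hL m (m + k) hm
      obtain ⟨g', hg', h⟩ := hT3 k n b 1 γ hb le_rfl (one_mem _) hγ
      have hKle : m + k ≤ m + m * (m + k) :=
        le_trans (Nat.le_mul_of_pos_left _ hm) (Nat.le_add_left _ _)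
      refine ⟨[⟨m * (m + k), T * (g' * γ * g'⁻¹)⟩], ?_, ?_⟩
      · intro x hx
        rw [List.mem_singleton] at hx
        subst hx
        exact val_place hR hG hT1 hKle hg' hγ
      · have e1 : b * (1 * γ * 1⁻¹) = b * γ := by group
        rw [e1] at h
        exact h
    obtain ⟨l, hl, h⟩ := (chain hG hM (S := {θ : RD | Val m θ}) (fun θ h => h) hone hed).1
      (val_mul hM he hV)
    refine ⟨l.foldr (mul m) e, val_foldr hM hl he, ?_⟩
    rw [← foldr_mul_assoc]
    exact eqn_symm h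

end Pool.Agent.K1H87.LK
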