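import Pool.Agent.K1H35.LK.Defs

/-!
# The sliding lemma (task T5 of MP_5b16f0_gt)
-/

set_option autoImplicit false

namespace Pool.Agent.K1H87.LK

open Pool.Agent.K1H35.LK

theorem val_congr {m k : ℕ} {b b' : Br} (h : Val m ⟨k, b⟩) (hb : b' ∈ BN (m + k))
    (hp : pm b' = pm b) : Val m ⟨k, b'⟩ := by
  refine ⟨hb, ?_⟩
  show Ok m (m + k) (pm b')
  rw [hp]
  exact h.2

theorem gam_pm (hG : S_GAM) {N n : ℕ} {x : Br} (h : x ∈ Gam N n) : pm x = 1 :=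
  (hG.2.2.2.1 N n h).1

theorem gam_mem (hG : S_GAM) {N n : ℕ} {x : Br} (h : x ∈ Gam N n) : x ∈ BN N :=
  (hG.2.2.2.1 N n h).2

theorem eqn_of_mv {m n : ℕ} {d e : RD} (h1 : Val m d) (h2 : Val m e) (h : Mv m d e) :
    Eqn m n d e := Relation.EqvGen.rel _ _ ⟨h1, h2, Or.inl h⟩

theorem eqn_of_ins {m n : ℕ} {d e : RD} (h1 : Val m d) (h2 : Val m e) (h : Ins m n d e) :
    Eqn m n d e := Relation.EqvGen.rel _ _ ⟨h1, h2, Or.inr h⟩

theorem eqn_trans {m n : ℕ} {d e f : RD} (h1 : Eqn m n d e) (h2 : Eqn m n e f) : Eqn m n d f :=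
  Relation.EqvGen.trans _ _ _ h1 h2

theorem eqn_symm {m n : ℕ} {d e : RD} (h1 : Eqn m n d e) : Eqn m n e d :=
  Relation.EqvGen.symm _ _ h1

theorem eqn_refl {m n : ℕ} (d : RD) : Eqn m n d d := Relation.EqvGen.refl _

/-- Stabilization with a conjugate of the last generator. -/
theorem mv_stab (hR : S_REAL) {m k : ℕ} {x y w : Br} (h : 0 < m + k) (hx : x ∈ BN (m + k))
    (hy : y ∈ BN (m + k)) (hw : w ∈ BC m (m + k)) :
    Mv m ⟨k, x * y⟩ ⟨k + 1, x * (w * s (m + k - 1) * w⁻¹) * y⟩ := by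
  have hwN : w ∈ BN (m + k) := hR.2.2.2.1 m (m + k) hw
  have := Mv.stab (m := m) k (x * w) (w⁻¹ * y) h (mul_mem hx hwN) (mul_mem (inv_mem hwN) hy)
  have e1 : x * w * (w⁻¹ * y) = x * y := by group
  have e2 : x * w * s (m + k - 1) * (w⁻¹ * y) = x * (w * s (m + k - 1) * w⁻¹) * y := by group
  rw [e1, e2] at this
  exact this

theorem t_SLIDE (hR : S_REAL) (hG : S_GAM) (hP : S_PLACE) (hM : S_MUL) : S_SLIDE := by
  intro m k K n j b g γ t hm hV hK hg hγ hj hc hcne ht hpt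
  have hV2 : Val m ⟨k, b⟩ := hV
  obtain ⟨hbN, hok⟩ := hV
  simp only at hbN hok
  have r1 := hR.1
  have r2 := hR.2.1
  have r3 := hR.2.2.1
  have r4 := hR.2.2.2.1
  have r5 := hR.2.2.2.2.1
  have r6 := hR.2.2.2.2.2.1
  have r8 := hR.2.2.2.2.2.2.2.1
  have r10 := hR.2.2.2.2.2.2.2.2.2
  -- the position of the strand and its next position
  have ha : pm g j < m + k := r2 _ _ hg _ (lt_of_lt_of_le hj hK)
  have hcN : pm b (pm g j) < m + k := r2 _ _ hbN _ ha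
  obtain ⟨w, hw, hwc, hwT⟩ := r10 m (m + k) (pm b (pm g j)) hc hcN
  obtain ⟨u, hu, hpu⟩ := r8 0 (m + k + 1) (Equiv.swap (pm g j) (m + k)) (by intro a ha; omega)
    (by
      intro x hx
      rw [Equiv.swap_apply_of_ne_of_ne] <;> omega)
  have huN : u ∈ BN (m + k + 1) := r4 0 _ hu
  have hwN : w ∈ BN (m + k) := r4 m _ hw
  have hle : BN (m + k) ≤ BN (m + k + 1) := r5 _ _ (Nat.le_succ _)
  have hsN : s (m + k - 1) ∈ BC m (m + k + 1) := Subgroup.subset_closure ⟨m + k - 1, by omega, by omega, rfl⟩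
  have hwN1 : w ∈ BC m (m + k + 1) := r6 m _ _ (Nat.le_succ _) hw
  set T : Br := w * s (m + k - 1) * w⁻¹ with hTdef
  have hTC : T ∈ BC m (m + k + 1) := mul_mem (mul_mem hwN1 hsN) (inv_mem hwN1)
  have hTN : T ∈ BN (m + k + 1) := r4 m _ hTC
  have hγK : γ ∈ BN K := gam_mem hG hγ
  have hγN : γ ∈ BN (m + k) := r5 _ _ hK hγK
  have hγN1 : γ ∈ BN (m + k + 1) := hle hγN
  have hpγ : pm γ = 1 := gam_pm hG hγ
  have hgN1 : g ∈ BN (m + k + 1) := hle hg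
  have hbN1 : b ∈ BN (m + k + 1) := hle hbN
  have htN1 : t ∈ BN (m + k + 1) := hle ht
  have hpm : 0 < m + k := by omega
  have hgj : ∀ j', j' < K → j' ≠ j → pm g j' ≠ pm g j := by
    intro j' _ hne h
    exact hne ((pm g).injective h)
  have hglt : ∀ j', j' < K → pm g j' < m + k := fun j' hj' => r2 _ _ hg _ (lt_of_lt_of_le hj' hK)
  -- the places agree (1)
  have hpl1 : ∀ j', j' < K → pm (b * g) j' = pm (T * b * u * g) j' := by
    intro j' hj'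
    simp only [map_mul, Equiv.Perm.mul_apply]
    rw [hwT, hpu]
    by_cases hjj : j' = j
    · subst hjj
      rw [Equiv.swap_apply_left, r1 _ _ hbN _ le_rfl, Equiv.swap_apply_right]
    · have h1 : pm g j' < m + k := hglt j' hj'
      have h3 : pm b (pm g j') < m + k := r2 _ _ hbN _ h1
      have h4 : pm b (pm g j') ≠ pm b (pm g j) := fun h => hgj j' hj' hjj ((pm b).injective h)
      rw [Equiv.swap_apply_of_ne_of_ne (hgj j' hj' hjj) (by omega),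
        Equiv.swap_apply_of_ne_of_ne h4 (by omega)]
  -- the places agree (2)
  have hpl2 : ∀ j', j' < K → pm (t * g) j' = pm (T⁻¹ * u * g) j' := by
    intro j' hj'
    simp only [map_mul, map_inv, Equiv.Perm.mul_apply]
    rw [hwT, hpu, hpt, Equiv.swap_inv]
    by_cases hjj : j' = j
    · subst hjj
      rw [Equiv.swap_apply_left, Equiv.swap_apply_left, Equiv.swap_apply_right]
    · have h1 : pm g j' < m + k := hglt j' hj'
      rw [Equiv.swap_apply_of_ne_of_ne (hgj j' hj' hjj) (hcne j' hj'),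
        Equiv.swap_apply_of_ne_of_ne (hgj j' hj' hjj) (by omega),
        Equiv.swap_apply_of_ne_of_ne (hcne j' hj') (by omega)]
  have hz1 := hP K (m + k + 1) n γ (b * g) (T * b * u * g) (by omega) hγ (mul_mem hbN1 hgN1)
    (mul_mem (mul_mem (mul_mem hTN hbN1) huN) hgN1) hpl1
  have hz2 := hP K (m + k + 1) n γ (t * g) (T⁻¹ * u * g) (by omega) hγ (mul_mem htN1 hgN1)
    (mul_mem (mul_mem (inv_mem hTN) huN) hgN1) hpl2
  set z1 : Br := (b * g * γ * (b * g)⁻¹)⁻¹ * (T * b * u * g * γ * (T * b * u * g)⁻¹) with hz1def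
  set z2 : Br := (t * g * γ * (t * g)⁻¹)⁻¹ * (T⁻¹ * u * g * γ * (T⁻¹ * u * g)⁻¹) with hz2def
  have hz1' : (T * b)⁻¹ * z1 * (T * b) ∈ Gam (m + k + 1) (n + 1) := by
    have := hG.1 (m + k + 1) (n + 1) (T * b)⁻¹ z1 (inv_mem (mul_mem hTN hbN1)) hz1
    rwa [inv_inv] at this
  -- the four braids
  have hx0 : b * (g * γ * g⁻¹) ∈ BN (m + k) := mul_mem hbN (mul_mem (mul_mem hg hγN) (inv_mem hg))
  have hV0 : Val m ⟨k, b * (g * γ * g⁻¹)⟩ := by
    refine val_congr hV2 hx0 ?_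
    simp only [map_mul, map_inv, hpγ, mul_one, mul_inv_cancel]
  have hx5 : b * (t * g * γ * (t * g)⁻¹) ∈ BN (m + k) :=
    mul_mem hbN (mul_mem (mul_mem (mul_mem ht hg) hγN) (inv_mem (mul_mem ht hg)))
  have hV5 : Val m ⟨k, b * (t * g * γ * (t * g)⁻¹)⟩ := by
    refine val_congr hV2 hx5 ?_
    simp only [map_mul, map_inv, hpγ, mul_one, mul_inv_cancel]
  -- step 1 : stabilization
  have hmv1 : Mv m ⟨k, b * (g * γ * g⁻¹)⟩ ⟨k + 1, (b * g * γ * (b * g)⁻¹) * T * b⟩ := by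
    have hx : b * g * γ * (b * g)⁻¹ ∈ BN (m + k) :=
      mul_mem (mul_mem (mul_mem hbN hg) hγN) (inv_mem (mul_mem hbN hg))
    have := mv_stab hR (m := m) (k := k) (x := b * g * γ * (b * g)⁻¹) (y := b) (w := w) hpm hx hbN hw
    have e1 : b * g * γ * (b * g)⁻¹ * b = b * (g * γ * g⁻¹) := by group
    rw [e1] at this
    exact this
  have hV1 := hM.2.1 m _ _ hV0 hmv1
  -- step 4 : stabilization
  have hmv4 : Mv m ⟨k, b * (t * g * γ * (t * g)⁻¹)⟩ ⟨k + 1, b * T * (t * g * γ * (t * g)⁻¹)⟩ := by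
    have hx : t * g * γ * (t * g)⁻¹ ∈ BN (m + k) :=
      mul_mem (mul_mem (mul_mem ht hg) hγN) (inv_mem (mul_mem ht hg))
    exact mv_stab hR (m := m) (k := k) (x := b) (y := t * g * γ * (t * g)⁻¹) (w := w) hpm hbN hx hw
  have hV4 := hM.2.1 m _ _ hV5 hmv4
  -- step 2 : insertion
  have hphi : (b * g * γ * (b * g)⁻¹) * T * b * ((T * b)⁻¹ * z1 * (T * b)) =
      T * b * (u * g * γ * (u * g)⁻¹) := by
    rw [hz1def]
    group
  have hpz1 : pm ((T * b)⁻¹ * z1 * (T * b)) = 1 := gam_pm hG hz1'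
  have hmz1 : (T * b)⁻¹ * z1 * (T * b) ∈ BN (m + k + 1) := gam_mem hG hz1'
  have hV2' : Val m ⟨k + 1, T * b * (u * g * γ * (u * g)⁻¹)⟩ := by
    rw [← hphi]
    refine val_congr hV1 (mul_mem hV1.1 hmz1) ?_
    rw [map_mul, hpz1, mul_one]
  have hins2 : Ins m (n + 1) ⟨k + 1, (b * g * γ * (b * g)⁻¹) * T * b⟩
      ⟨k + 1, T * b * (u * g * γ * (u * g)⁻¹)⟩ :=
    ⟨rfl, _, hz1', hphi.symm⟩
  -- step 3 : conjugation
  have hmv3 : Mv m ⟨k + 1, T * b * (u * g * γ * (u * g)⁻¹)⟩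
      ⟨k + 1, b * (u * g * γ * (u * g)⁻¹) * T⟩ := by
    have := Mv.conj (m := m) (k + 1) (T * b * (u * g * γ * (u * g)⁻¹)) T⁻¹ (inv_mem hTC)
    have e1 : T⁻¹ * (T * b * (u * g * γ * (u * g)⁻¹)) * T⁻¹⁻¹ =
      b * (u * g * γ * (u * g)⁻¹) * T := by group
    rw [e1] at this
    exact this
  have hV3 := hM.2.1 m _ _ hV2' hmv3
  have hphi2 : b * T * (t * g * γ * (t * g)⁻¹) * z2 = b * (u * g * γ * (u * g)⁻¹) * T := by
    rw [hz2def]
    group
  have hins3 : Ins m (n + 1) ⟨k + 1, b * T * (t * g * γ * (t * g)⁻¹)⟩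
      ⟨k + 1, b * (u * g * γ * (u * g)⁻¹) * T⟩ :=
    ⟨rfl, _, hz2, hphi2.symm⟩
  exact eqn_trans (eqn_of_mv hV0 hV1 hmv1) (eqn_trans (eqn_of_ins hV1 hV2' hins2)
    (eqn_trans (eqn_of_mv hV2' hV3 hmv3) (eqn_trans (eqn_symm (eqn_of_ins hV4 hV3 hins3))
      (eqn_symm (eqn_of_mv hV5 hV4 hmv4)))))

end Pool.Agent.K1H87.LK
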